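import Mathlib
import Pool.Agent.Y674.TR.Stm
import Pool.Agent.Y927.HY.Liou

/-!
# TR-NEAR: complex numbers at which a separable integral polynomial is small are near a root
-/

set_option autoImplicit false

namespace Pool.Agent.Y429.TR

open Polynomial NumberField Pool.Agent.Y674.TR

lemma rt_eq (f : ℤ[X]) : Pool.Agent.Y674.HY.Rt f = Rt f := rfl

lemma nodup_of_sep {f : ℤ[X]} (hsep : (f.map (Int.castRingHom ℚ)).Separable) :
    (f.map (Int.castRingHom ℂ)).roots.Nodup := by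
  have h1 : f.map (Int.castRingHom ℂ) = (f.map (Int.castRingHom ℚ)).map (algebraMap ℚ ℂ) := by
    rw [Polynomial.map_map]
    congr 1
  rw [h1]
  exact nodup_roots hsep.map

lemma rt_val {f : ℤ[X]} (hsep : (f.map (Int.castRingHom ℚ)).Separable) :
    (Rt f).val = (f.map (Int.castRingHom ℂ)).roots := by
  unfold Rt
  rw [Multiset.toFinset_val, Multiset.dedup_eq_self.mpr (nodup_of_sep hsep)]

lemma rt_card {f : ℤ[X]} (hsep : (f.map (Int.castRingHom ℚ)).Separable) :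
    (Rt f).card = f.natDegree := by
  have h1 : (Rt f).card = Multiset.card (Rt f).val := rfl
  rw [h1, rt_val hsep, ← (IsAlgClosed.splits (f.map (Int.castRingHom ℂ))).natDegree_eq_card_roots,
    natDegree_map_eq_of_injective (RingHom.injective_int _)]

/-- the factorisation -/
lemma ev_eq_prod {f : ℤ[X]} (hsep : (f.map (Int.castRingHom ℚ)).Separable) (s : ℂ) :
    ev f s = (f.leadingCoeff : ℂ) * ∏ τ ∈ Rt f, (s - τ) := by
  unfold ev
  have h1 := (IsAlgClosed.splits (f.map (Int.castRingHom ℂ))).eq_prod_roots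
  have h2 : (f.map (Int.castRingHom ℂ)).leadingCoeff = (f.leadingCoeff : ℂ) := by
    rw [leadingCoeff_map_of_injective (RingHom.injective_int _)]
    rfl
  rw [h2] at h1
  have h3 : ∏ τ ∈ Rt f, (s - τ) = ((Rt f).val.map fun τ => s - τ).prod := rfl
  rw [h3, rt_val hsep]
  conv_lhs => rw [h1]
  rw [eval_mul, eval_C, eval_multiset_prod, Multiset.map_map]
  congr 2
  refine Multiset.map_congr rfl fun τ _ => ?_
  simp

/-- separation of the roots -/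
lemma separation {e : ℕ} {ψ : ℤ[X]} {H : ℕ} (he : 1 ≤ e) (hdeg : ψ.natDegree = e)
    (hsep : (ψ.map (Int.castRingHom ℚ)).Separable) (hH1 : 1 ≤ H)
    (hH : ∀ i, |ψ.coeff i| ≤ (H : ℤ)) {τ τ' : ℂ} (hτ : τ ∈ Rt ψ) (hτ' : τ' ∈ Rt ψ)
    (hne : τ ≠ τ') :
    1 ≤ ‖τ - τ'‖ * ((H : ℝ) * (1 + 2 * e * H) ^ e.factorial) := by
  classical
  have h0 : ψ ≠ 0 := by
    rintro rfl
    rw [natDegree_zero] at hdeg
    omega
  have ha0 : (ψ.leadingCoeff : ℂ) ≠ 0 := by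
    exact_mod_cast leadingCoeff_ne_zero.mpr h0
  obtain ⟨c, hc⟩ : ∃ c : ℂ → ℤ, ∀ r, c r = (if r = τ then 1 else 0) - (if r = τ' then 1 else 0) :=
    ⟨_, fun _ => rfl⟩
  have hcA : ∀ r ∈ Pool.Agent.Y674.HY.Rt ψ, |(c r : ℝ)| ≤ 1 := by
    intro r _
    rw [hc]
    split_ifs <;> simp
  have hα : (ψ.leadingCoeff : ℂ) * (τ - τ') =
      ∑ r ∈ Pool.Agent.Y674.HY.Rt ψ, (c r : ℂ) * ((ψ.leadingCoeff : ℂ) * r) ^ 1 - ((0 : ℤ) : ℂ) := by
    rw [rt_eq, Int.cast_zero, sub_zero]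
    have h1 : ∀ r ∈ Rt ψ, (c r : ℂ) * ((ψ.leadingCoeff : ℂ) * r) ^ 1 =
        (if r = τ then (ψ.leadingCoeff : ℂ) * τ else 0) -
          (if r = τ' then (ψ.leadingCoeff : ℂ) * τ' else 0) := by
      intro r _
      rw [hc, pow_one]
      by_cases h1 : r = τ
      · have h2 : r ≠ τ' := by
          rw [h1]
          exact hne
        simp only [if_pos h1, if_neg h2]
        rw [← h1]
        simp
      · by_cases h2 : r = τ'
        · simp only [if_pos h2, if_neg h1]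
          rw [← h2]
          simp
        · simp only [if_neg h1, if_neg h2]
          simp
    rw [Finset.sum_congr rfl h1, Finset.sum_sub_distrib, Finset.sum_ite_eq' (Rt ψ) τ,
      Finset.sum_ite_eq' (Rt ψ) τ', if_pos hτ, if_pos hτ']
    ring
  rcases Pool.Agent.Y927.HY.liou e ψ H he hdeg hsep hH1 hH c 1 zero_le_one hcA 0 1
    ((ψ.leadingCoeff : ℂ) * (τ - τ')) hα with h | h
  · exfalso
    rcases mul_eq_zero.mp h with h1 | h1
    · exact ha0 h1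
    · exact hne (sub_eq_zero.mp h1)
  · have h1 : ‖(ψ.leadingCoeff : ℂ)‖ ≤ H := by
      rw [Complex.norm_intCast]
      exact_mod_cast hH ψ.natDegree
    have h2 : (1 + (e : ℝ) * 1 * (2 * H : ℝ) ^ 1 + |((0 : ℤ) : ℝ)|) = 1 + 2 * e * H := by
      simp
      ring
    rw [h2, norm_mul] at h
    refine h.trans ?_
    have h3 : 0 ≤ ‖τ - τ'‖ * (1 + 2 * (e : ℝ) * H) ^ e.factorial := by positivity
    calc ‖(ψ.leadingCoeff : ℂ)‖ * ‖τ - τ'‖ * (1 + 2 * (e : ℝ) * H) ^ e.factorial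
        = ‖(ψ.leadingCoeff : ℂ)‖ * (‖τ - τ'‖ * (1 + 2 * (e : ℝ) * H) ^ e.factorial) := by ring
      _ ≤ (H : ℝ) * (‖τ - τ'‖ * (1 + 2 * (e : ℝ) * H) ^ e.factorial) :=
          mul_le_mul_of_nonneg_right h1 h3
      _ = _ := by ring

theorem near : NEAR := by
  classical
  intro e he
  refine ⟨(e.factorial + 1) * (e - 1), (2 * (1 + 2 * e) ^ e.factorial) ^ (e - 1), ?_⟩
  intro φ ψ H hD
  have hcard : (Rt ψ).card = e := by rw [rt_card hD.sep, hD.degψ]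
  refine ⟨hcard, fun s => ?_⟩
  have hne : (Rt ψ).Nonempty := by
    rw [← Finset.card_pos, hcard]
    exact he
  obtain ⟨τ, hτ, hmin⟩ := Finset.exists_min_image (Rt ψ) (fun τ => ‖s - τ‖) hne
  refine ⟨τ, hτ, ?_⟩
  have hH1 : (1 : ℝ) ≤ H := by exact_mod_cast hD.one
  obtain ⟨B, hB⟩ : ∃ B : ℝ, B = (H : ℝ) * (1 + 2 * e * H) ^ e.factorial := ⟨_, rfl⟩
  have hB0 : 0 < B := by
    rw [hB]
    positivity
  have h0 : ψ ≠ 0 := by
    intro h
    have := hD.degψ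
    rw [h, natDegree_zero] at this
    omega
  -- the other roots
  have hfar : ∀ τ' ∈ (Rt ψ).erase τ, 1 ≤ 2 * B * ‖s - τ'‖ := by
    intro τ' hτ'
    obtain ⟨h1, h2⟩ := Finset.mem_erase.mp hτ'
    have h3 := separation he hD.degψ hD.sep hD.one hD.cψ hτ h2 (Ne.symm h1)
    rw [← hB] at h3
    have h4 := hmin τ' h2
    have h5 : ‖τ - τ'‖ ≤ 2 * ‖s - τ'‖ := by
      calc ‖τ - τ'‖ = ‖(s - τ') - (s - τ)‖ := by
            congr 1
            ring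
        _ ≤ ‖s - τ'‖ + ‖s - τ‖ := norm_sub_le _ _
        _ ≤ 2 * ‖s - τ'‖ := by linarith
    calc (1 : ℝ) ≤ ‖τ - τ'‖ * B := h3
      _ ≤ 2 * ‖s - τ'‖ * B := mul_le_mul_of_nonneg_right h5 hB0.le
      _ = _ := by ring
  have ha1 : (1 : ℝ) ≤ ‖(ψ.leadingCoeff : ℂ)‖ := by
    rw [Complex.norm_intCast]
    have : (1 : ℤ) ≤ |ψ.leadingCoeff| := Int.one_le_abs (leadingCoeff_ne_zero.mpr h0)
    exact_mod_cast this
  have h1 : ‖s - τ‖ ≤ (2 * B) ^ (e - 1) * ‖ev ψ s‖ := by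
    have h2 : (1 : ℝ) ≤ ∏ τ' ∈ (Rt ψ).erase τ, (2 * B * ‖s - τ'‖) := by
      calc (1 : ℝ) = ∏ _τ' ∈ (Rt ψ).erase τ, (1 : ℝ) := by rw [Finset.prod_const_one]
        _ ≤ _ := Finset.prod_le_prod (fun _ _ => zero_le_one) hfar
    have h3 : ∏ τ' ∈ (Rt ψ).erase τ, (2 * B * ‖s - τ'‖) =
        (2 * B) ^ (e - 1) * ∏ τ' ∈ (Rt ψ).erase τ, ‖s - τ'‖ := by
      rw [Finset.prod_mul_distrib, Finset.prod_const, Finset.card_erase_of_mem hτ, hcard]
    have h4 : ‖ev ψ s‖ = ‖(ψ.leadingCoeff : ℂ)‖ *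
        (‖s - τ‖ * ∏ τ' ∈ (Rt ψ).erase τ, ‖s - τ'‖) := by
      rw [ev_eq_prod hD.sep, norm_mul, norm_prod,
        ← Finset.mul_prod_erase (Rt ψ) (fun τ => ‖s - τ‖) hτ]
    rw [h3] at h2
    have h5 : 0 ≤ ∏ τ' ∈ (Rt ψ).erase τ, ‖s - τ'‖ :=
      Finset.prod_nonneg fun _ _ => norm_nonneg _
    have h6 : 0 ≤ ‖s - τ‖ * ∏ τ' ∈ (Rt ψ).erase τ, ‖s - τ'‖ := mul_nonneg (norm_nonneg _) h5
    have h7 : (0 : ℝ) ≤ (2 * B) ^ (e - 1) := by positivity
    calc ‖s - τ‖ = ‖s - τ‖ * 1 := (mul_one _).symm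
      _ ≤ ‖s - τ‖ * ((2 * B) ^ (e - 1) * ∏ τ' ∈ (Rt ψ).erase τ, ‖s - τ'‖) :=
          mul_le_mul_of_nonneg_left h2 (norm_nonneg _)
      _ = (2 * B) ^ (e - 1) * (1 * (‖s - τ‖ * ∏ τ' ∈ (Rt ψ).erase τ, ‖s - τ'‖)) := by ring
      _ ≤ (2 * B) ^ (e - 1) * (‖(ψ.leadingCoeff : ℂ)‖ *
          (‖s - τ‖ * ∏ τ' ∈ (Rt ψ).erase τ, ‖s - τ'‖)) :=
          mul_le_mul_of_nonneg_left (mul_le_mul_of_nonneg_right ha1 h6) h7
      _ = _ := by rw [h4]
  refine h1.trans (mul_le_mul_of_nonneg_right ?_ (norm_nonneg _))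
  have h2 : 2 * B ≤ 2 * (1 + 2 * e) ^ e.factorial * (H : ℝ) ^ (e.factorial + 1) := by
    rw [hB]
    have h3 : 1 + 2 * (e : ℝ) * H ≤ (1 + 2 * e) * H := by nlinarith
    have h4 : (1 + 2 * (e : ℝ) * H) ^ e.factorial ≤ ((1 + 2 * e) * H) ^ e.factorial :=
      pow_le_pow_left₀ (by positivity) h3 _
    rw [mul_pow] at h4
    calc 2 * ((H : ℝ) * (1 + 2 * e * H) ^ e.factorial)
        ≤ 2 * ((H : ℝ) * ((1 + 2 * e) ^ e.factorial * (H : ℝ) ^ e.factorial)) := by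
          gcongr
      _ = _ := by
          rw [pow_succ]
          ring
  calc (2 * B) ^ (e - 1)
      ≤ (2 * (1 + 2 * e) ^ e.factorial * (H : ℝ) ^ (e.factorial + 1)) ^ (e - 1) :=
        pow_le_pow_left₀ (by positivity) h2 _
    _ = (((2 * (1 + 2 * e) ^ e.factorial) ^ (e - 1) : ℕ) : ℝ) *
        (H : ℝ) ^ ((e.factorial + 1) * (e - 1)) := by
        rw [mul_pow, ← pow_mul]
        push_cast
        ring

end Pool.Agent.Y429.TR
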